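import Pool.Agent.Helper77.LD5.FW
import Pool.Agent.Helper27.LD5.SQ2

/-!
# Project LD5, block FW: `fam_Wd` without hypotheses
-/

set_option autoImplicit false

namespace Pool.Agent.Helper77.LD5

open Pool.Agent.Helper41.LD4
open Pool.Agent.Helper41.LD5

variable {F : Fam} {κ D K : ℕ} {a₀ ℓst a ℓ : ℝ}

/-- FW1: linear classes by `GG_Wd`, powers by `sq_Wd` -/
theorem fam_Wd (hF : F.Ok) (hκ : 1 ≤ κ) (B : F.Big κ D K) (S : F.St κ D K a₀ ℓst) (h1 : a₀ ≤ a) (h2 : a + ℓ ≤ a₀ + ℓst) :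
    WdU F.ty5 F.τ5 (F.g + 1) F.Q F.m (F.U a₀ ℓst) (F.T a₀ ℓst) K a ℓ :=
  fam_Wd_of (fun hf hm hw h hℓ hn => Pool.Agent.Helper27.LD5.sq_Wd hf hm hw h hℓ hn) hF hκ B S h1 h2

end Pool.Agent.Helper77.LD5
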