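import Pool.Agent.Helper31.LD5.TPA
import Pool.Agent.Helper17.LD4.Sys
import Pool.Agent.Helper8.LD4.N1

/-!
# Project LD5, block FW: the windows of the family
-/

set_option autoImplicit false

namespace Pool.Agent.Helper77.LD5

open Set MeasureTheory Filter Topology
open Pool.Agent.Helper41.LD (av var haar DiscLe Dioph Kk)
open Pool.Agent.Helper41.LD2 (EqA)
open Pool.Agent.Helper41.LD3 (Cst Us tm fr lamG lin fr_pos fr_geo tm_mono tm_block_le tm_block_ge Us_measurable)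
open Pool.Agent.Helper41.LD4
open Pool.Agent.Helper41.LD5
open Pool.Agent.Helper17.LD4 (GG_Wd Wd_mono17 sys_all)

section

variable {A₀ : ℝ} {P m : ℕ} {x y : ℝ}

theorem fpos (hA : 0 < A₀) (hP : 1 ≤ P) (hm : 1 ≤ m) (hx : 0 < x) : 0 < fp A₀ P m x := by
  have hP0 : (0 : ℝ) < P := by exact_mod_cast hP
  have hm0 : (0 : ℝ) < m := by exact_mod_cast hm
  unfold fp
  positivity

theorem fmono (hA : 0 < A₀) (hP : 1 ≤ P) (hm : P ≤ m) (hx : 0 < x) (hxy : x ≤ y) : fp A₀ P m x ≤ fp A₀ P m y := by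
  have hP0 : (0 : ℝ) < P := by exact_mod_cast hP
  have hm0 : (P : ℝ) ≤ m := by exact_mod_cast hm
  unfold fp
  refine mul_le_mul_of_nonneg_left (Real.rpow_le_rpow hx.le hxy ?_) (by positivity)
  rw [sub_nonneg, one_le_div hP0]
  exact hm0

theorem pderiv (A₀ : ℝ) (P m : ℕ) (cp : ℝ → ℝ) (hx : 0 < x) : HasDerivAt (pwf A₀ cp P m) (fp A₀ P m x) x := by
  unfold pwf fp
  have h1 := ((Real.hasDerivAt_rpow_const (p := (m : ℝ) / P) (Or.inl hx.ne')).const_mul A₀).add_const (cp ((m : ℝ) / P))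
  rw [← mul_assoc] at h1
  exact h1

theorem pmeas (A₀ : ℝ) (cp : ℝ → ℝ) (P m : ℕ) : Measurable (pwf A₀ cp P m) := by
  unfold pwf
  exact ((measurable_id.pow_const _).const_mul _).add_const _

end

/-- the statement of `sq_Wd` -/
def SqWd : Prop := ∀ {N₀ m : ℕ} {w : ℝ} {f : ℝ → ℝ} {a ℓ : ℝ} {U V : ℕ → ℝ → ℝ} {β : ℝ} {n : ℕ}, Fn N₀ m w f → 1 ≤ m → 0 ≤ w →
  Sq U V β a (a + ℓ) → 0 < ℓ → 1 ≤ V n a * ℓ → Wd (fun j x => f (U j x)) β (6 * m * w) n a ℓ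

variable {F : Fam} {κ D K : ℕ} {a₀ ℓst a ℓ x : ℝ} {s : ℕ}

/-! ### The two kinds of classes -/

theorem U_lin (h : s / F.Q < F.g) : F.U a₀ ℓst s = Us F.τ5 F.c F.Q ℓst s := by
  funext j x
  unfold Fam.U
  rw [if_pos h]

theorem U_pow (h : ¬ s / F.Q < F.g) :
    F.U a₀ ℓst s = fun j => pwf F.A₀ F.cp F.P (F.Q * (tp F.A₀ F.P F.Q (s % F.Q) a₀ ℓst + j) + s % F.Q) := by
  funext j x
  unfold Fam.U
  rw [if_neg h]

theorem V_lin (h : s / F.Q < F.g) (j : ℕ) (x : ℝ) : F.V a₀ ℓst s j x = fr F.τ5 F.Q s (tm F.τ5 F.Q s ℓst + j) := by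
  unfold Fam.V
  rw [if_pos h]

theorem V_pow (h : ¬ s / F.Q < F.g) (j : ℕ) (x : ℝ) :
    F.V a₀ ℓst s j x = fp F.A₀ F.P (F.Q * (tp F.A₀ F.P F.Q (s % F.Q) a₀ ℓst + j) + s % F.Q) x := by
  unfold Fam.V
  rw [if_neg h]

theorem T_lin (h : s / F.Q < F.g) (ℓ : ℝ) : F.T a₀ ℓst s ℓ = tm F.τ5 F.Q s ℓ - tm F.τ5 F.Q s ℓst := by
  unfold Fam.T
  rw [if_pos h]

theorem T_pow (h : ¬ s / F.Q < F.g) (ℓ : ℝ) :
    F.T a₀ ℓst s ℓ = tp F.A₀ F.P F.Q (s % F.Q) a₀ ℓ - tp F.A₀ F.P F.Q (s % F.Q) a₀ ℓst := by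
  unfold Fam.T
  rw [if_neg h]

theorem idx_pow (hs : s < (F.g + 1) * F.Q) (h : ¬ s / F.Q < F.g) : s / F.Q = F.g := by
  have h1 := Cst.idx_lt hs
  omega

theorem τ5_pow (F : Fam) : F.τ5 F.g = F.x₁ ^ (1 / (F.P : ℝ)) := by
  unfold Fam.τ5
  rw [if_neg (lt_irrefl _)]

theorem ty5_pow (F : Fam) : F.ty5 F.g = (0, 0, 0) := by
  unfold Fam.ty5
  rw [if_neg (lt_irrefl _)]

/-! ### The start window -/

theorem St_K {n : ℕ} (S : F.St κ D K a₀ ℓst) (hn : n ≤ K ^ (2 * κ + 2)) : ℓst * 2 ^ n ≤ 1 := by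
  have h1 := S.sm
  have h2 : ℓst * 2 ^ n ≤ ℓst * 2 ^ (K ^ (2 * κ + 2)) :=
    mul_le_mul_of_nonneg_left (pow_le_pow_right₀ (by norm_num) hn) S.pos.le
  exact h2.trans h1

theorem St_K1 (S : F.St κ D K a₀ ℓst) : ℓst * 2 ^ K ≤ 1 :=
  St_K S (Nat.le_self_pow (by omega) K)

theorem St_a (S : F.St κ D K a₀ ℓst) : a₀ ≤ F.x₂ := by
  have h1 := S.hi
  have h2 := S.pos
  linarith

/-- the exponents of a stage are large -/
theorem P_le (hF : F.Ok) (B : F.Big κ D K) (S : F.St κ D K a₀ ℓst) (e j : ℕ) :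
    F.P ≤ F.Q * (tp F.A₀ F.P F.Q e a₀ ℓst + j) + e := by
  have h1 := tp_big hF B.hCx S.lo (St_a S) S.pos (St_K1 S) e
  have hQ := hF.H.base.hQ
  have h2 : F.P ≤ 4 * F.P * F.Q := by
    calc F.P ≤ 4 * F.P := by omega
      _ ≤ 4 * F.P * F.Q := Nat.le_mul_of_pos_right _ (by omega)
  have h3 : F.Q * tp F.A₀ F.P F.Q e a₀ ℓst ≤ F.Q * (tp F.A₀ F.P F.Q e a₀ ℓst + j) := Nat.mul_le_mul_left _ (by omega)
  omega

theorem fam_meas (F : Fam) (a₀ ℓst : ℝ) (s j : ℕ) : Measurable (F.U a₀ ℓst s j) := by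
  by_cases h : s / F.Q < F.g
  · rw [U_lin h]
    exact Us_measurable _ _ _ _ _ _
  · rw [U_pow h]
    exact pmeas _ _ _ _

theorem fam_Sq (hF : F.Ok) (hκ : 1 ≤ κ) (B : F.Big κ D K) (S : F.St κ D K a₀ ℓst) {s : ℕ} (hs : s < (F.g + 1) * F.Q) :
    Sq (F.U a₀ ℓst s) (F.V a₀ ℓst s) (F.τ5 (s / F.Q) ^ F.Q) a₀ (a₀ + ℓst) := by
  have hQ := hF.H.base.hQ
  have hlt := hF.H.base.lt hs
  by_cases h : s / F.Q < F.g
  · refine ⟨one_lt_pow₀ hlt (by omega), fun j => ⟨fam_meas F a₀ ℓst s j, fun x _ => ?_, fun x _ => ?_, ?_⟩, fun j x _ => ?_⟩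
    · rw [U_lin h, V_lin h]
      unfold Us lin
      have h3 := ((hasDerivAt_id x).const_mul (fr F.τ5 F.Q s (tm F.τ5 F.Q s ℓst + j))).add_const
        (F.c (fr F.τ5 F.Q s (tm F.τ5 F.Q s ℓst + j)))
      simpa using h3
    · rw [V_lin h]
      exact fr_pos hlt _
    · intro x _ y _ _
      show F.V a₀ ℓst s j x ≤ F.V a₀ ℓst s j y
      rw [V_lin h, V_lin h]
    · rw [V_lin h, V_lin h]
      exact (fr_geo hQ hlt _).grow j
  · have hsg := idx_pow hs h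
    have hx1 := hF.h1
    have hlo := S.lo
    have hm := P_le hF B S (s % F.Q)
    have hP := hF.hP
    refine ⟨one_lt_pow₀ hlt (by omega), fun j => ⟨fam_meas F a₀ ℓst s j, fun x hx => ?_, fun x hx => ?_, ?_⟩, fun j x hx => ?_⟩
    · rw [U_pow h, V_pow h]
      exact pderiv _ _ _ F.cp (by linarith [hx.1])
    · rw [V_pow h]
      exact fpos hF.hA hP (hP.trans (hm j)) (by linarith [hx.1])
    · intro x hx y hy hxy
      show F.V a₀ ℓst s j x ≤ F.V a₀ ℓst s j y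
      rw [V_pow h, V_pow h]
      exact fmono hF.hA hP (hm j) (by linarith [hx.1]) hxy
    · rw [V_pow h, V_pow h, hsg, τ5_pow, mul_comm]
      have h3 := TPA.fp_st (m := F.Q * (tp F.A₀ F.P F.Q (s % F.Q) a₀ ℓst + j) + s % F.Q)
        (m' := F.Q * (tp F.A₀ F.P F.Q (s % F.Q) a₀ ℓst + (j + 1)) + s % F.Q) (P := F.P) (x := x) (y := F.x₁)
        hF.hA hP hx1.le (hlo.trans hx.1) (by
          have : F.Q * (tp F.A₀ F.P F.Q (s % F.Q) a₀ ℓst + j) ≤ F.Q * (tp F.A₀ F.P F.Q (s % F.Q) a₀ ℓst + (j + 1)) :=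
            Nat.mul_le_mul_left _ (by omega)
          omega)
      have h4 : F.Q * (tp F.A₀ F.P F.Q (s % F.Q) a₀ ℓst + (j + 1)) + s % F.Q -
          (F.Q * (tp F.A₀ F.P F.Q (s % F.Q) a₀ ℓst + j) + s % F.Q) = F.Q := by
        have : F.Q * (tp F.A₀ F.P F.Q (s % F.Q) a₀ ℓst + (j + 1)) = F.Q * (tp F.A₀ F.P F.Q (s % F.Q) a₀ ℓst + j) + F.Q := by ring
        omega
      rw [h4] at h3
      exact h3

/-! ### Windows -/

theorem Sq_sub {U V : ℕ → ℝ → ℝ} {β p q p' q' : ℝ} (h : Sq U V β p q) (h1 : p ≤ p') (h2 : q' ≤ q) : Sq U V β p' q' :=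
  ⟨h.hβ, fun j => (h.cv j).sub h1 h2, fun j x hx => h.grow j x ⟨h1.trans hx.1, hx.2.trans h2⟩⟩

/-- a power class has reached the frequency `1 / ℓ` at its time -/
theorem V_T (hF : F.Ok) (B : F.Big κ D K) (S : F.St κ D K a₀ ℓst) (hℓ : 0 < ℓ) (hst : ℓ ≤ ℓst) (ha : a₀ ≤ a) {s : ℕ}
    (h : ¬ s / F.Q < F.g) : 1 ≤ F.V a₀ ℓst s (F.T a₀ ℓst s ℓ) a * ℓ := by
  rw [V_pow h, T_pow h, Nat.add_sub_cancel' (tp_mono hF S.lo hℓ hst)]
  have hx1 := hF.h1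
  have hlo := S.lo
  have h1 := tp_spec hF S.lo hℓ (s % F.Q)
  have h2 : F.P ≤ F.Q * tp F.A₀ F.P F.Q (s % F.Q) a₀ ℓ + s % F.Q := by
    have h3 := P_le hF B S (s % F.Q) (tp F.A₀ F.P F.Q (s % F.Q) a₀ ℓ - tp F.A₀ F.P F.Q (s % F.Q) a₀ ℓst)
    rwa [Nat.add_sub_cancel' (tp_mono hF S.lo hℓ hst)] at h3
  have h4 := fmono hF.hA hF.hP h2 (show 0 < a₀ by linarith) ha
  exact h1.trans (mul_le_mul_of_nonneg_right h4 hℓ.le)

/-- FW1: linear classes by `GG_Wd`, powers by `sq_Wd` -/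
theorem fam_Wd_of (sq_Wd : SqWd) (hF : F.Ok) (hκ : 1 ≤ κ) (B : F.Big κ D K) (S : F.St κ D K a₀ ℓst) (h1 : a₀ ≤ a) (h2 : a + ℓ ≤ a₀ + ℓst) :
    WdU F.ty5 F.τ5 (F.g + 1) F.Q F.m (F.U a₀ ℓst) (F.T a₀ ℓst) K a ℓ := by
  intro p hp a' ℓ' hℓ' h3 h4
  have hK : 1 ≤ K := by
    have := B.hK
    omega
  have hst : ℓ' ≤ ℓst := by linarith
  obtain ⟨hp1, hp2⟩ := Finset.mem_sigma.1 hp
  have hs := Finset.mem_range.1 hp1
  by_cases h : p.1 / F.Q < F.g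
  · have e1 : GU F.ty5 F.Q (F.U a₀ ℓst) p = GG F.τ5 F.ty5 F.c F.Q ℓst p := by
      funext j x
      unfold GU GG
      rw [U_lin h]
    rw [e1, T_lin h]
    exact GG_Wd hF.H F.c hK hℓ' hst hp
  · have hsg := idx_pow hs h
    have hty : (F.ty5 (p.1 / F.Q)).2.1 = 0 := by
      rw [hsg, ty5_pow]
    rw [hty] at hp2
    have S0 := sys_all (p := 0) (Or.inl rfl) hK
    have hfn := S0.fn _ hp2
    have hv : 0 ≤ sysv 0 p.2 := le_trans (by positivity) (S0.v_lo _ hp2)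
    have hm4 : sysm 0 = 4 := by
      unfold sysm
      rw [if_pos rfl]
    rw [hm4] at hfn
    have hsq : Sq (F.U a₀ ℓst p.1) (F.V a₀ ℓst p.1) (F.τ5 (p.1 / F.Q) ^ F.Q) a' (a' + ℓ') :=
      Sq_sub (fam_Sq hF hκ B S hs) (h1.trans h3) (h4.trans h2)
    have hW := sq_Wd hfn (by norm_num) (by positivity) hsq hℓ' (V_T hF B S hℓ' hst (h1.trans h3) h)
    have e1 : GU F.ty5 F.Q (F.U a₀ ℓst) p = fun j x => sysf 0 p.2 (F.U a₀ ℓst p.1 j x) := by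
      funext j x
      unfold GU
      rw [hty]
    rw [e1, hty]
    refine Wd_mono17 hW ?_
    have hm : (12 : ℝ) ≤ F.m := by exact_mod_cast hF.m12
    have hm2 : (12 : ℝ) ^ 2 ≤ (F.m : ℝ) ^ 2 := pow_le_pow_left₀ (by norm_num) hm 2
    have h5 : 6 * ((4 : ℕ) : ℝ) * (((4 : ℕ) : ℝ) * sysv 0 p.2) = 96 * sysv 0 p.2 := by
      push_cast
      ring
    rw [h5]
    exact mul_le_mul_of_nonneg_right (by nlinarith) hv

/-- FW2: steps of one block -/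
theorem fam_blk (hF : F.Ok) (hκ : 1 ≤ κ) (B : F.Big κ D K) (S : F.St κ D K a₀ ℓst) (hℓ : 0 < ℓ) (hℓst : ℓ ≤ ℓst) {s : ℕ} (hs : s < (F.g + 1) * F.Q) :
    F.T a₀ ℓst s (ℓ / 2 ^ (K ^ (2 * κ + 1))) ≤ F.T a₀ ℓst s ℓ + F.CF * K ^ (2 * κ + 1) ∧
    F.T a₀ ℓst s ℓ + 3 * (F.R * K) ≤ F.T a₀ ℓst s (ℓ / 2 ^ (K ^ (2 * κ + 1))) := by
  have hQ := hF.H.base.hQ
  have hlt := hF.H.base.lt hs
  have hst1 := St_K1 S
  have hℓK : ℓ * 2 ^ K ≤ 1 := (mul_le_mul_of_nonneg_right hℓst (by positivity)).trans hst1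
  have hℓ1 : ℓ ≤ 1 := by
    have h1 : (1 : ℝ) ≤ 2 ^ K := one_le_pow₀ (by norm_num)
    nlinarith
  by_cases h : s / F.Q < F.g
  · rw [T_lin h, T_lin h]
    have h1 := tm_mono hQ hlt hℓ hℓst
    have h2 := tm_block_le hQ hlt (hF.H.base.hCF _ (Cst.idx_lt hs)) hℓ (K ^ (2 * κ + 1))
    have h3 := tm_block_ge hQ hlt (hF.H.base.hDF _ (Cst.idx_lt hs)) hℓ hℓ1 B.num.hRD
    omega
  · rw [T_pow h, T_pow h]
    have h1 := tp_mono (e := s % F.Q) hF S.lo hℓ hℓst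
    have h2 := tp_block_le (e := s % F.Q) hF S.lo hℓ (K ^ (2 * κ + 1))
    have h3 := tp_block_ge (e := s % F.Q) hF B.hCx S.lo (St_a S) hℓ hℓK (Nat.mod_lt _ (by omega)) B.num.hRD
    omega

end Pool.Agent.Helper77.LD5
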